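import Mathlib
import Pool.Agent.W853.Counter

/-!
# The constant `β` is not a lower bound for the balance constants outside `𝒟`

The balance constant `balance` and the class `InD` (the class `𝒟`) are those of the problem.  There
is a poset of width two with `41` elements, not in `𝒟`, whose balance constant is smaller than
`β = (5864893 + 27 √57) / 16812976`.  So the answer to Q2 is no.

The poset consists of the chains `x_0 < ... < x_19` and `y_0 < ... < y_20`; it has `1583915616` linear
extensions and its balance constant is at most `552536892 / 1583915616 = 0.34884237...`, while
`β = 0.34884346...`.  Linear extensions are counted as lattice paths.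
-/

namespace Pool.Agent.Results.MP_33fb9b_co.BetaNotOptimal

open Pool.Agent.H13R3.WB Pool.Agent.W853

/-- There is a finite poset `P` outside `𝒟` (with `41` elements and of width at most two) such that
`δ(P) < β`. -/
theorem result : ∃ (P : Type) (_ : Fintype P) (_ : PartialOrder P),
    Fintype.card P = 41 ∧ (∀ s : Finset P, IsAntichain (· ≤ ·) (s : Set P) → s.card ≤ 2) ∧
    ¬ InD P ∧ balance P < (5864893 + 27 * Real.sqrt 57) / 16812976 :=
  ⟨T41.W, inferInstance, inferInstance, T41.card_W, T41.antichain_card, not_InD,
    balance_T41.trans_lt lt_beta⟩

end Pool.Agent.Results.MP_33fb9b_co.BetaNotOptimal
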